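import Pool.Agent.helper26.T5.SpecB
import Pool.Agent.helper82.T5.SpecS
import Pool.Agent.helper95.T5.SpecM
import Pool.Agent.helper8.T6.DefsC

set_option autoImplicit false

/-!
# T6 (MP_16912e_nt), block H (unfolding): definitions and the interface with block C

Page: /team-store/T6_LF_helper82.md, section 4.  `TD_stmt` (output of block C) is in `Pool/Agent/helper8/T6/DefsC.lean`.
-/

namespace Pool.Agent.T6

open Finset NumberField Pool.Agent.helper3.FT Pool.Agent.helper47.RA Pool.Agent.T5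
open scoped nonZeroDivisors

section
variable {K : Type} [Field K] [NumberField K]

/-- the pairs `(a, α)` in the good region with `gcd (y(α), y(γ)) ≤ H` -/
def GS (Q : QF K) (κ N Y Y₂ H : ℝ) : Set (Ideal (𝓞 K) × 𝓞 K) :=
  {x | x.1 ∈ IA K Y ∧ x.2 ∈ AL Q x.1 (Y₂ * √(-(Q.D : ℝ)) / √N) ∧
    ∃ γ, Adm Q x.1 x.2 γ ∧ GoodR Q κ Y₂ x.1 x.2 γ ∧ (gd Q x.2 γ : ℝ) ≤ H}

/-- the ideals of norm in `(Y / 2, Y]` such that the shortest vector of `a²` is about `Z √l` -/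
def IM (Q : QF K) (Y l : ℝ) : Set (Ideal (𝓞 K)) :=
  {a | a ∈ IA K Y ∧ (∀ α ∈ a ^ 2, α ≠ 0 → (Ideal.absNorm a : ℝ) ^ 2 * l < Q.v₁ α ^ 2) ∧
    ∃ α ∈ a ^ 2, α ≠ 0 ∧ Q.v₁ α ^ 2 ≤ (Ideal.absNorm a : ℝ) ^ 2 * (2 * l)}

/-- the minimal norm in an ideal class -/
noncomputable def mu (c : ClassGroup (𝓞 K)) : ℕ :=
  sInf {n : ℕ | ∃ I : (Ideal (𝓞 K))⁰, ClassGroup.mk0 I = c ∧ Ideal.absNorm (I : Ideal (𝓞 K)) = n}

end

/-- **UB** (the target): the sum of `#Cl[5]` over imaginary quadratic fields is `O(N)` -/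
def UB_stmt : Prop := ∃ C : ℝ, 0 ≤ C ∧ ∀ f : ℤ → ℕ,
  (∀ (K : Type) [Field K] [NumberField K], Module.finrank ℚ K = 2 →
    f (NumberField.discr K) = Nat.card {x : ClassGroup (𝓞 K) // x ^ 5 = 1}) →
  ∀ (N : ℕ) (s : Finset ℤ), (∀ D ∈ s, IsFund D ∧ D < 0 ∧ |D| < N) → ∑ D ∈ s, (f D : ℝ) ≤ C * N

end Pool.Agent.T6
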