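import Pool.Agent.helper3.T6.DefsH
import Pool.Agent.helper26.T5.AllL
import Pool.Agent.helper3.T5.AllA
import Pool.Agent.helper3.FT.Fin
import Pool.Agent.helper5.T5.SFA

set_option autoImplicit false

/-!
# T6 (MP_16912e_nt), block H: unfolding (rows)

RULES. Row `t6:XXX` is a file `Pool/Agent/<seat>/T6/XXX.lean`: `import Pool.Agent.helper3.T6.SpecH`, `set_option autoImplicit false`, `namespace Pool.Agent.T6`,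
`open Finset NumberField Pool.Agent.helper3.FT Pool.Agent.helper47.RA Pool.Agent.T5`, `open scoped nonZeroDivisors`, and `theorem XXX (hYYY : YYY_stmt) .. : XXX_stmt`, whose EXACT line is in the lock note
(other T6 rows only as hypotheses; an unused hypothesis may stay). Auxiliary lemmas are prefixed `XXX_`. No `convert`, `congr!`, `native_decide`, no double quotes.

AVAILABLE THEOREMS (all imported, no hypotheses needed; cite them freely). Namespace `Pool.Agent.helper26.T5` (statements with proofs in `helper26/T5/SpecB.lean`): `lemb : LEMB` (the ring homomorphism `E : 𝓞 K →+* ℂ`, `‖E a‖ = v₁ a`, `Im (E a) = Y a √|D| / 2`, `E (cj a) = conj (E a)`,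
`nn a = v₁ a ^ 2`, `a * cj a = nn a`), `AllL.aLBB : LBB` (reduced basis `RB Q I e₁ e₂`), `AllL.aLAW : LAW` (`nn α = Z² lamI`), `lfu : LFU` (the structure `Full`), `AllL.aLRD : LRD`, `lrm : LRM`, `AllL.aLYT : LYT` (`Y θ ≠ 0`, its size, `θ' = ± θ`), `lga : LGA` (existence of `γ`), `AllL.aLT4`, ..
Namespace `Pool.Agent.T5`: `AGEX : AGEX_stmt`, `AFUL`, `ACEN : ACEN_stmt`, `all_ALG : ALG_stmt`, `SFA : SFA_stmt` (finiteness of `IA`, `AL`; a field for every negative fundamental discriminant). Namespace `Pool.Agent.helper3.FT`: `Full.gcd_dvd`, `QF.mul_bar`, `QF.h96_Y_mul`, `QF.h96_Y_cj`, `main_bound`, ..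

NOTATION in the proofs: `Z = absNorm a`, `s = √|D| = √(-D)`, `E` from `lemb`, `N / 2 < -D ≤ N`.
-/

namespace Pool.Agent.T6

open Finset NumberField Pool.Agent.helper3.FT Pool.Agent.helper47.RA Pool.Agent.T5
open scoped nonZeroDivisors

/-- **HGEO** (medium; plane geometry, Mathlib only). A long row of points in good directions.
PROOF. Let `b ∈ ℂ`, `b² = τ` (`IsAlgClosed.exists_pow_nat_eq`), `‖b‖ = 1`. Three unit vectors `w₁ = b, w₂ = I b, w₃ = u₁/‖u₁‖` (`u₁ ≠ 0` because `V > 0`) and four candidates `v ∈ {2+i, 1+2i, -1+2i, -2+i}` (norm `√5`). For two different candidates `v, v'`: `|Im(conj v v')| ≥ 3`.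
For a unit vector `w` at most one candidate has `|Im(conj w v)| < 3/(2√5)`: with `p = conj w v, q = conj w v'`: `conj p q = conj v v'`, `Im(conj p q) = p.re q.im - p.im q.re`, `|.| ≤ √5(|q.im| + |p.im|) < 3`. So some candidate `v` is good for all three; `ζ = v/√5`: `‖ζ‖ = 1`, `Im ζ ≥ 1/√5`,
`|Im(conj w ζ)| ≥ 3/10` for `w = w₁, w₂, w₃`. Then `Im(conj τ ζ²) = 2 Re(conj b ζ) Im(conj b ζ)` and `|Re(conj b ζ)| = |Im(conj (I b) ζ)|`, so `|Im(conj τ ζ²)| ≥ 18/100`.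
Let `σ = |Im(conj u₁ ζ)| ∈ [3‖u₁‖/10, ‖u₁‖]`. `f(t) = t σ / V`; `f(R/3) ≥ R (3‖u₁‖/10)/(3V) ≥ 1`, so there is `e` with `f(R/3) ≤ 2^e < 2 f(R/3)` (`exists_nat_pow_near`, take the next power); put `t = 2^e V / σ`: `R/3 ≤ t ≤ 2R/3`.
`j = ± 2^e` with `j Im(conj u₁ u₂) = Im(conj u₁ (t ζ))` (choose the sign). Then `Im(conj u₁ (tζ - j u₂)) = 0`, so `tζ - j u₂ = x* u₁` with `x*` real. `x₀ = ⌈x*⌉`. `|j| V = t σ ≤ R ‖u₁‖`.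
For `x` as in the statement: `z = x u₁ + j u₂ = tζ + (x - x*) u₁`, `0 ≤ x - x* ≤ 1 + (x - x₀)`, so `‖z - tζ‖ ≤ ‖u₁‖ + R/300 ≤ R/150 ≤ t/50`. So `‖z‖ ≥ 49t/50 ≥ R/4`, `‖z‖ ≤ 51t/50 ≤ R`, `Im z ≥ t/√5 - t/50 ≥ ‖z‖/10`;
`|Im(conj τ z²)| ≥ t² |Im(conj τ ζ²)| - ‖z - tζ‖ ‖z + tζ‖ ≥ t² (18/100 - (1/50)(101/50)) ≥ (51 t/50)²/10 ≥ ‖z‖²/10`. -/
def HGEO_stmt : Prop := ∀ (u₁ u₂ τ : ℂ) (R V : ℝ), 0 < V → |((starRingEnd ℂ) u₁ * u₂).im| = V → ‖τ‖ = 1 →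
  10 * V ≤ R * ‖u₁‖ → 300 * ‖u₁‖ ≤ R →
  ∃ (j x₀ : ℤ) (e : ℕ), |j| = 2 ^ e ∧ |(j : ℝ)| * V ≤ R * ‖u₁‖ ∧
    ∀ x : ℤ, x₀ ≤ x → ((x : ℝ) - x₀) * (300 * ‖u₁‖) ≤ R →
      R / 4 ≤ ‖(x : ℂ) * u₁ + j * u₂‖ ∧ ‖(x : ℂ) * u₁ + j * u₂‖ ≤ R ∧
      ‖(x : ℂ) * u₁ + j * u₂‖ ≤ 10 * ((x : ℂ) * u₁ + j * u₂).im ∧
      ‖(x : ℂ) * u₁ + j * u₂‖ ^ 2 ≤ 10 * |((starRingEnd ℂ) τ * ((x : ℂ) * u₁ + j * u₂) ^ 2).im|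

/-- **HLC** (short; Mathlib only). Few large divisors with small common divisors.
PROOF. `L(S) = S.lcm d`. (1) for every `e`: `gcd (L S) e ∣ ∏ x ∈ S, gcd (d x) e` (induction: `gcd (lcm a b) e` divides `gcd a e * gcd b e`, for instance by `Nat.gcd_lcm_distrib`-type identities or prime by prime; `lcm a b ∣ a b` and `Nat.gcd_mul_dvd_mul_gcd`).
(2) `H ^ K ≤ L(S) * M ^ (K²)`, `K = S.card`, by induction: for `x ∉ S`: `lcm (L S) (d x) * gcd (L S) (d x) = L(S) d x`, `gcd ≤ M ^ K` by (1), so `L(S ∪ {x}) ≥ L(S) H / M ^ K ≥ H^(K+1) / (M^(K²) M^K)` and `K² + K ≤ (K+1)²`. (3) `L(S) ∣ y.natAbs`, `y ≠ 0`, so `L(S) ≤ |y|`. -/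
def HLC_stmt : Prop := ∀ (S : Finset ℤ) (d : ℤ → ℕ) (y : ℤ) (H M : ℝ), y ≠ 0 → 1 ≤ H → 1 ≤ M →
  (∀ x ∈ S, (d x : ℤ) ∣ y ∧ H < d x) →
  (∀ x ∈ S, ∀ x' ∈ S, x ≠ x' → (Nat.gcd (d x) (d x') : ℝ) ≤ M) →
  H ^ S.card ≤ |(y : ℝ)| * M ^ (S.card ^ 2)

/-- **HGC** (short to medium). The common divisor of two conductors in one row.
PROOF. `d = gd Q α γ`, `d' = gd Q α' γ'` (`≥ 1` because `Y α ≠ 0`), `e = gcd d d'`, `Z = absNorm a`, `Λ = lamI a α`, `Λ' = lamI a α'`. `lfu` (with `θ` from `Adm.ga`; `Cont1` is `Adm.pL`) gives `F : Full Q` with `F.a = a, F.β = α, F.γ = γ, F.Λ = Λ`, the same for `α'`. `AllL.aLRD` with `r = gcd d Z`, `d = r d₂`: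
`r` squarefree, `gcd (d₂, r Z) = 1`, for primes `p ∣ r`: `p ∣ D`, `p ∣ Λ`. The same for `d'`. Put `r₀ = gcd e Z` (divides `r`, so squarefree) and `e₀ = e / r₀`; a prime `p ∣ e₀`, `p ∣ Z` would give `p² ∣ e` (`p ∣ r₀` and `p ∣ e₀`), `p² ∣ d = r d₂`, but `p ∣ r`, `p² ∤ r`, `p ∤ d₂`. So `gcd (e₀, Z) = 1`, also `gcd (e₀, r₀) = 1`.
`e₀ ∣ Y α, Y α'`, so `e₀ ∣ Y (cj α * α')` (`QF.h96_Y_mul`, `QF.h96_Y_cj`), `= ± m Z²`, so `e₀ ∣ m`. Let `r₁` be the odd part of `r₀` (`r₀ = r₁` or `2 r₁`). Every prime of `r₁` divides `Λ` and `Λ'`, so (squarefree) `r₁ ∣ Λ, Λ'` and `r₁ Z² ∣ nn α = Z² Λ`, `nn α'` (`AllL.aLAW`, first part); `lrm : LRM` gives `r₁ Z² ∣ Y (cj α * α') = ± m Z²`, so `r₁ ∣ m`.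
So `e₀ r₁ ∣ m` and `e = e₀ r₀ ≤ 2 e₀ r₁ ≤ 2 |m|`. -/
def HGC_stmt : Prop := ∀ (K : Type) [Field K] [NumberField K] (Q : QF K), Q.D < 0 →
  ∀ (a : Ideal (𝓞 K)) (α γ α' γ' : 𝓞 K) (m : ℤ), Adm Q a α γ → Adm Q a α' γ' → m ≠ 0 →
  |Q.Y (Q.cj α * α')| = |m| * (Ideal.absNorm a : ℤ) ^ 2 →
  (Nat.gcd (gd Q α γ) (gd Q α' γ') : ℤ) ≤ 2 * |m|

/-- **HROW** (medium; from HGEO). The row in `a²`.
PROOF. `E` from `lemb`, `u₁ = E e₁`, `u₂ = E e₂`, `‖u₁‖ = v₁ e₁`, `Z = absNorm a ≥ 1`, `V = Z² s / 2`: `|Im (conj u₁ u₂)| = |Im (E (cj e₁ * e₂))| = |Y (cj e₁ * e₂)| s/2 = V` (`RB.det`, `absNorm (a²) = Z²`). `θ ≠ 0`, `τ = E θ / ‖E θ‖`. `R = Z √T`: `10 V = 5 Z² s ≤ Z √T v₁ e₁ = R ‖u₁‖`, `300 ‖u₁‖ ≤ R`.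
HGEO gives `j, x₀, e`. `|j| Z s ≤ 2 √T v₁ e₁` from `|j| V ≤ R ‖u₁‖`. Let `x` be as in the statement, `α = x e₁ + j e₂ ∈ a²`, `z = E α = x u₁ + j u₂`. `Y α s/2 = Im z ≥ ‖z‖/10 > 0`, `v₁ α ^ 2 = ‖z‖² ≤ Z² T`: `α ∈ AL Q a T`. `lga : LGA` gives `γ` with `γ θ = Z α²`; `E γ = Z z² / E θ`, so
`|Im (E γ)| = (Z/‖E θ‖) |Im (conj τ z²)| ≥ ‖E γ‖/10 > 0` (`α ≠ 0`), so `Y γ ≠ 0`. `Adm.pL` (content one): if `(q) a² ∣ (α)` then `α = q β`, `β ∈ a²` (`Ideal.mem_span_singleton_mul`), `β = x' e₁ + y' e₂`; `(x - q x') e₁ + (j - q y') e₂ = 0`; multiply by `cj e₁` and take `Y`: `(j - q y') Y (cj e₁ * e₂) = 0`, so `j = q y'` and then (`e₁ ≠ 0`) `x = q x'`.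
`q ∣ j = ± 2^e` and `q` prime: `q = 2`, so `2 ∣ x`, but `x` is odd. `GoodR Q (1/100) Y₂`: `v₁ α = Z √Λ` (`AllL.aLAW`: `nn α = Z² Λ`, `nn α = v₁ α ^ 2`), `v₁ θ ^ 2 = nn θ = Z^5`, `v₁ γ = Z v₁ α ^ 2 / v₁ θ = √Z Λ`. (1) `Λ = v₁ α ^ 2 / Z² ≥ T/16 ≥ Y₂/100`. (2) `Y α s = 2 Im z ≥ v₁ α/5 ≥ Z √Λ/50`. (3) `|Y γ| s = 2 |Im (E γ)| ≥ v₁ γ/5 ≥ √Z Λ/50`. -/
def HROW_stmt : Prop := ∀ (K : Type) [Field K] [NumberField K] (Q : QF K), Q.D < 0 →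
  ∀ (a : Ideal (𝓞 K)) (θ e₁ e₂ : 𝓞 K), Prim a → a ≠ ⊥ → Ideal.span {θ} = a ^ 5 → Pool.Agent.helper26.T5.RB Q (a ^ 2) e₁ e₂ →
  ∀ T : ℝ, 0 < T → 5 * ((Ideal.absNorm a : ℝ) * √|(Q.D : ℝ)|) ≤ √T * Q.v₁ e₁ →
  300 * Q.v₁ e₁ ≤ (Ideal.absNorm a : ℝ) * √T →
  ∃ j x₀ : ℤ, j ≠ 0 ∧ |(j : ℝ)| * ((Ideal.absNorm a : ℝ) * √|(Q.D : ℝ)|) ≤ 2 * (√T * Q.v₁ e₁) ∧
    ∀ x : ℤ, x₀ ≤ x → ((x : ℝ) - x₀) * (300 * Q.v₁ e₁) ≤ (Ideal.absNorm a : ℝ) * √T → Odd x →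
      (x : 𝓞 K) * e₁ + j * e₂ ∈ AL Q a T ∧ ∃ γ : 𝓞 K, Adm Q a ((x : 𝓞 K) * e₁ + j * e₂) γ ∧
        ∀ Y₂ : ℝ, Y₂ ≤ 2 * T → GoodR Q (1 / 100) Y₂ a ((x : 𝓞 K) * e₁ + j * e₂) γ

/-- **HRAT** (short to medium). A reduced basis of `a²` when its shortest vector is about `Z √l`.
PROOF. `AllL.aLBB` (`a² ≠ ⊥`): `RB Q (a ^ 2) e₁ e₂`; `e₁ ∈ a²`, `e₁ ≠ 0`: first inequality. Second: let `m` be the short vector, `m = x e₁ + y e₂` (`RB.sp`). `y = 0`: `m = x e₁`, `|x| ≥ 1`, `v₁ e₁ ≤ v₁ m` (`Q.v₁_mul`, `Q.v₁_int`). `y ≠ 0`: `cj e₁ * m = x (cj e₁ * e₁) + y (cj e₁ * e₂)`, `Y (cj e₁ * e₁) = 0`, so `|Y (cj e₁ * m)| = |y| Z²`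
(`RB.det`, `absNorm (a²) = Z²`), and by `lemb` `v₁ e₁ v₁ m = ‖E (cj e₁ * m)‖ ≥ |Im| = |y| Z² s/2 ≥ Z² s/2 ≥ v₁ e₁ v₁ e₂/2` (`RB.red`), so `v₁ m ≥ v₁ e₂/2 ≥ v₁ e₁/2` and `v₁ e₁ ^ 2 ≤ 4 v₁ m ^ 2 ≤ 8 l Z²`. -/
def HRAT_stmt : Prop := ∀ (K : Type) [Field K] [NumberField K] (Q : QF K), Q.D < 0 → ∀ (a : Ideal (𝓞 K)) (l : ℝ), a ≠ ⊥ →
  (∀ α ∈ a ^ 2, α ≠ 0 → (Ideal.absNorm a : ℝ) ^ 2 * l < Q.v₁ α ^ 2) →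
  (∃ α ∈ a ^ 2, α ≠ 0 ∧ Q.v₁ α ^ 2 ≤ (Ideal.absNorm a : ℝ) ^ 2 * (2 * l)) →
  ∃ e₁ e₂ : 𝓞 K, Pool.Agent.helper26.T5.RB Q (a ^ 2) e₁ e₂ ∧ (Ideal.absNorm a : ℝ) ^ 2 * l < Q.v₁ e₁ ^ 2 ∧
    Q.v₁ e₁ ^ 2 ≤ (Ideal.absNorm a : ℝ) ^ 2 * (8 * l)

/-- **HBAD** (medium; from HGC, HLC). Few elements of a row have a large conductor.
PROOF. `α_x = x e₁ + j e₂`, `γ_x` as given, `d_x = gd Q α_x γ_x`. Apply HLC with `y = Y θ`, `M = 2 W`. `Y θ ≠ 0`: `AllL.aLYT`. `d_x ∣ Y θ`: `Adm.ga` gives `θ_x` with `a⁵ = (θ_x)`, `γ_x θ_x = Z α_x²`; `lfu` (`Adm.pa, ne, mem, pL`; `α_x ≠ 0` as `Y α_x > 0`) gives `F : Full Q` with `F.β = α_x, F.γ = γ_x, F.α = θ_x`; `Full.gcd_dvd` with `d = d_x`; `θ_x = ± θ` (`AllL.aLYT`, third part), `Y (-θ) = - Y θ`.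
`x ≠ x'` in `S`: `cj α_x * α_x' = x x' cj e₁ e₁ + x j cj e₁ e₂ + j x' cj e₂ e₁ + j² cj e₂ e₂`; `Y (cj e * e) = 0` (it is the integer `nn e`, `lemb`), `Y (cj e₂ * e₁) = - Y (cj e₁ * e₂)` (`Q.Y_cj`), so `|Y (cj α_x * α_x')| = |j (x - x')| |Y (cj e₁ * e₂)| = |j (x - x')| Z²` (`RB.det`, `absNorm (a ^ 2) = Z²`). HGC with `m = j (x - x') ≠ 0`: `gcd (d_x, d_x') ≤ 2 |j (x - x')| ≤ 2 W`. -/
def HBAD_stmt : Prop := ∀ (K : Type) [Field K] [NumberField K] (Q : QF K), Q.D < -4 →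
  ∀ (a : Ideal (𝓞 K)) (θ e₁ e₂ : 𝓞 K), a ≠ ⊥ → ¬ a.IsPrincipal → Ideal.span {θ} = a ^ 5 →
  Pool.Agent.helper26.T5.RB Q (a ^ 2) e₁ e₂ → ∀ (j : ℤ) (S : Finset ℤ) (H W : ℝ), j ≠ 0 → 1 ≤ H → 1 ≤ W →
  (∀ x ∈ S, ∃ γ : 𝓞 K, Adm Q a ((x : 𝓞 K) * e₁ + j * e₂) γ ∧ H < (gd Q ((x : 𝓞 K) * e₁ + j * e₂) γ : ℝ)) →
  (∀ x ∈ S, ∀ x' ∈ S, |(j : ℝ) * (x - x')| ≤ W) →
  H ^ S.card ≤ |(Q.Y θ : ℝ)| * (2 * W) ^ (S.card ^ 2)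

/-- **HCNT** (medium; from HROW, HRAT, HBAD). Many good `α` for one ideal.
PROOF. `K₀ = ⌈2/η⌉₊ ≥ 1`, `A = (2000 (K₀ + 2))²`, `η' = 1/(2 K₀²)`. `B = √N/(2l)`, `1 ≤ B ≤ N^η'` (so `l > 0`); `s = √(-D)`, `s² ∈ (N/2, N]`; `Y₂ = A N/(2l) = A √N B`, `T = Y₂ s/√N = A B s`; `Y₂ ≤ 2T` (`2 s ≥ √N`). `Z = absNorm a`, `a⁵ = (θ)` (`IA`). HRAT: `e₁, e₂`; `ρ = v₁ e₁/Z`, `l < ρ² ≤ 8l`.
HROW applies: `25 s² ≤ T ρ²` (`T ρ² ≥ A B s l = A s √N/2 ≥ A s²/2`) and `300² ρ² ≤ T` (`B s ≥ √2 l B² ≥ l` as `s ≥ √N/√2 = √2 l B`; `A ≥ 720000`). It gives `j, x₀`. `X = √T/(300 ρ)` is the length of the row (`((x : ℝ) - x₀) (300 v₁ e₁) ≤ Z √T` iff `x - x₀ ≤ X`): `T/ρ² ≥ A B s/(8l) ≥ A B² √2/8`, so `X ≥ √A B/1000`;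
`T/ρ² ≤ A B √N/l = 2 A B²`, so `X ≤ √A B`. `|j| ≤ 2 √T ρ/s ≤ 5 √A` (`T ρ² ≤ 8 l A B s = 4 A s √N ≤ 4 √2 A s²`). So `|j (x - x')| ≤ 5 A B =: W` for `x, x'` in the row. For odd `x` in the row HROW gives `α_x = x e₁ + j e₂ ∈ AL Q a T` and `γ_x` with `Adm` and `GoodR Q (1/100) Y₂`. `(Y θ)² |D| ≤ 4 Z⁵ ≤ 4 N^(5/2)` (`AllL.aLYT`; `Z ≤ Y ≤ √N`), so `|Y θ| ≤ N` (`N ≥ 64`).
Suppose that `K₀` different odd `x` of the row have `gd Q α_x γ_x > N^η`. HBAD (`S` = these `x`, `S.card = K₀`, `H = N^η`): `N² ≤ N^(η K₀) ≤ N (10 A B)^(K₀²) ≤ N (10 A)^(K₀²) N^(1/2)`: false for `N > (10 A)^(2 K₀²)`. So fewer than `K₀` odd `x` are bad. The number of odd `x` with `x₀ ≤ x ≤ x₀ + X` is at least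
`(X - 1)/2 ≥ √A B/2000 - 1/2 ≥ (K₀ + 2) B - 1/2 ≥ B + K₀`. `P` = the set of the `α_x`, `x` odd and not bad (`x ↦ α_x` is injective, `e₁ ≠ 0`). -/
def HCNT_stmt : Prop := ∀ η : ℝ, 0 < η → ∃ A η' N₀ : ℝ, 1 ≤ A ∧ 0 < η' ∧
  ∀ (K : Type) [Field K] [NumberField K] (Q : QF K) (N Y l : ℝ) (a : Ideal (𝓞 K)), N₀ ≤ N →
  N / 2 < -(Q.D : ℝ) → -(Q.D : ℝ) ≤ N → Y ≤ √N → N ^ (1 / 2 - η') ≤ 2 * l → 2 * l ≤ √N → a ∈ IM Q Y l →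
  ∃ P : Finset (𝓞 K), (∀ α ∈ P, (a, α) ∈ GS Q (1 / 100) N Y (A * N / (2 * l)) (N ^ η)) ∧
    √N / (2 * l) ≤ (P.card : ℝ)

/-- **HINJ** (medium; from TD, ALG; compare `Pool/Agent/helper20/T5/SUC.lean`, which is the same argument for one `g`). The injection into the tuples.
PROOF. (`TD_stmt` is in `Pool/Agent/helper8/T6/DefsC.lean`.) `η` from TD, `C, N₀` from TD for `κ, A`, `N₀ ≥ 10` (so `D < -4`). For `D ∈ DN N` with the chosen field `E` (`E.Q.D = D`) let `φ_D` be the map of ALG. `x = (a, α) ∈ GS` with `γ`, `g = gd Q α γ`, `1 ≤ g ≤ N^η`: `t = φ_D a α`, `TupOf Q a α γ g t`. `ACEN` with `d = g`: `Cen κ (N g²) Y Y₂ t`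
(the condition on `v₁ α` is the one of `AL` with `Y₂ √(-D)/√N`). `dis t = D g²` (`TupOf.D`). `F` = the set of all pairs `(g, t)` so obtained, over all `D`. The map `(D, (a, α)) ↦ (g, t)` is injective: `D = dis t/g²`, and for one `D` by the second clause of ALG (the `gd` are equal). `GS` is finite (`SFA`: `IA`, `AL` finite). So the left side is `F.card` and TD applies. -/
def HINJ_stmt : Prop := ALG_stmt → TD_stmt → ∃ η : ℝ, 0 < η ∧ ∀ κ A : ℝ, 0 < κ → 1 ≤ A → ∃ C N₀ : ℝ, 1 ≤ C ∧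
  ∀ N Y Y₂ : ℝ, N₀ ≤ N → 0 < Y → Y ≤ Y₂ → Y₂ ≤ N ^ η * Y → Y * Y₂ ≤ A * N → N ^ (1 - η) ≤ Y * Y₂ →
  ∑ D ∈ DN N, SF (fun _ E => ((GS E.Q κ N Y Y₂ (N ^ η)).ncard : ℝ)) D ≤ C * (Y * Y₂)

/-- **HMN** (short to medium; from HCNT, HINJ). The number of ideals with given sizes.
PROOF. `η` from HINJ; `A, η₁, N₁` from HCNT with this `η`; `C, N₂` from HINJ with `κ = 1/100` and `A`. `η' = min (η₁, η/4, 1/4)`. `Y₂ = A N/(2l)`. `Y ≤ 2l ≤ √N ≤ Y₂`. `Y₂ ≤ A N/Y ≤ N^η Y` because `Y² ≥ N^(1 - 2η')` and `N^(η/2) ≥ A` for large `N`. `Y Y₂ = A N Y/(2l) ≤ A N`. `Y Y₂ ≥ N^(1/2 - η') √N ≥ N^(1 - η)`. `2l ≥ Y ≥ N^(1/2 - η₁)`.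
For one `D` (field `E`): the pairs `(a, α)`, `a ∈ IM`, `α ∈ P_a` are different elements of the finite set `GS` (`SFA`; `D < 0`): `#IM · √N/(2l) ≤ #GS`. Sum over `D` (without a field both sides are 0): `(√N/(2l)) ∑ #IM ≤ C Y Y₂ = C A N Y/(2l)`, so `∑ #IM ≤ C A √N Y`. -/
def HMN_stmt : Prop := ∃ η' C N₀ : ℝ, 0 < η' ∧ 1 ≤ C ∧ ∀ N Y l : ℝ, N₀ ≤ N → N ^ (1 / 2 - η') ≤ Y → Y ≤ 2 * l →
  2 * l ≤ √N → ∑ D ∈ DN N, SF (fun _ E => ((IM E.Q Y l).ncard : ℝ)) D ≤ C * (√N * Y)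

/-- **HMU** (medium). Minimal norms in ideal classes.
PROOF. (1) the set is nonempty (`ClassGroup.mk0_surjective`): `Nat.sInf_mem`. (2) `Nat.sInf_le`. (3) norms of nonzero ideals are positive. (4) `Q.mul_bar : I * bar I = (absNorm I)`, so `mk0 (bar I) = (mk0 I)⁻¹`, and `absNorm (bar I) = absNorm I` (`QF.absNorm_bar`); `≤` in both directions.
(5) if `(q) ∣ I`, `I = (q) J` then `mk0 J = mk0 I` and `absNorm J < absNorm I`. (6) `c⁻¹ = mk0 I`; `AllL.aLBB`: `RB Q I e₁ e₂`, `v₁ e₁ ^ 2 ≤ v₁ e₁ v₁ e₂ ≤ √|D| absNorm I`; `(e₁) = I J` (`Ideal.dvd_span_singleton` or `Ideal.dvd_iff_le`), `mk0 J = c`, `absNorm I * absNorm J = nn e₁ = v₁ e₁ ^ 2` (`lemb`), so `absNorm J ≤ √|D|`.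
(7) `α ∈ I²`, `α ≠ 0`: `(α) = I² J`, `mk0 J = ((mk0 I)²)⁻¹`, `v₁ α ^ 2 = nn α = (absNorm I)² absNorm J ≥ (absNorm I)² mu ((mk0 I)²)` by (2), (4). (8) `J` with `mk0 J = ((mk0 I)²)⁻¹` and `absNorm J = mu (..)`: `I² J` is principal `= (α)` (`ClassGroup.mk0_eq_one_iff`), `α ∈ I²`, `α ≠ 0`, `v₁ α ^ 2 = (absNorm I)² absNorm J`. -/
def HMU_stmt : Prop := ∀ (K : Type) [Field K] [NumberField K] (Q : QF K), Q.D < 0 →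
  (∀ c : ClassGroup (𝓞 K), ∃ I : (Ideal (𝓞 K))⁰, ClassGroup.mk0 I = c ∧ Ideal.absNorm (I : Ideal (𝓞 K)) = mu c) ∧
  (∀ I : (Ideal (𝓞 K))⁰, mu (ClassGroup.mk0 I) ≤ Ideal.absNorm (I : Ideal (𝓞 K))) ∧
  (∀ c : ClassGroup (𝓞 K), 1 ≤ mu c ∧ mu c⁻¹ = mu c ∧ (mu c : ℝ) ≤ √|(Q.D : ℝ)|) ∧
  (∀ I : (Ideal (𝓞 K))⁰, Ideal.absNorm (I : Ideal (𝓞 K)) = mu (ClassGroup.mk0 I) → Prim (I : Ideal (𝓞 K))) ∧
  (∀ I : (Ideal (𝓞 K))⁰, (∀ α ∈ (I : Ideal (𝓞 K)) ^ 2, α ≠ 0 →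
      (Ideal.absNorm (I : Ideal (𝓞 K)) : ℝ) ^ 2 * (mu (ClassGroup.mk0 I ^ 2) : ℝ) ≤ Q.v₁ α ^ 2) ∧
    ∃ α ∈ (I : Ideal (𝓞 K)) ^ 2, α ≠ 0 ∧
      Q.v₁ α ^ 2 = (Ideal.absNorm (I : Ideal (𝓞 K)) : ℝ) ^ 2 * (mu (ClassGroup.mk0 I ^ 2) : ℝ))

/-- **HCL** (medium; from HMU). The classes of one field.
PROOF. `ClassGroup` is finite; `Ord = {c | c⁵ = 1, c ≠ 1}`, `P = {c ∈ Ord | mu c ≤ mu (c²)}`. `c ↦ c²` is injective on `Ord` (`c = (c²)³`) and maps `Ord \ P` into `P`: `mu ((c²)²) = mu (c⁴) = mu (c⁻¹) = mu c > mu (c²)`. So `#{c⁵ = 1} ≤ 1 + 2 #P`. Let `c ∈ P`, `a` the ideal of HMU (1): `absNorm a = mu c`, primitive, `a⁵` principal, `a` not principal (`ClassGroup.mk0_eq_one_iff`).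
`1 ≤ mu c ≤ mu (c²) ≤ M`: `i, j` with `M/2^(i+1) < mu c ≤ M/2^i`, `M/2^(j+1) < mu (c²) ≤ M/2^j` (`exists_nat_pow_near` for `M / mu`); `j ≤ i`. If `i < I`: `a ∈ IM Q (M/2^i) (M/2^(j+1))` by HMU (5) (last clause). If `i ≥ I`: `c ∈ CLS K (M/2^I)`. `c ↦ a` is injective. (`IM ⊆ IA` is finite by `SFA`.) -/
def HCL_stmt : Prop := ∀ (K : Type) [Field K] [NumberField K] (Q : QF K), Module.finrank ℚ K = 2 → Q.D < 0 →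
  ∀ (M : ℝ) (I : ℕ), √|(Q.D : ℝ)| ≤ M →
  (Nat.card {x : ClassGroup (𝓞 K) // x ^ 5 = 1} : ℝ) ≤
    1 + 2 * ((∑ i ∈ range I, ∑ j ∈ range (i + 1), ((IM Q (M / 2 ^ i) (M / 2 ^ (j + 1))).ncard : ℝ)) +
      ((CLS K (M / 2 ^ I)).ncard : ℝ))

/-- **HSUM** (medium; from HMN, HCL, `U_stmt`, `SC1_stmt`). The dyadic sum.
PROOF. `η', C₁, N₁` from HMN; we may take `η' ≤ 1/4` (the statement of HMN holds for smaller `η'`). `N` large, `I` with `2^I ≤ N^η' < 2^(I+1)`. HCL with `M = √N ≥ √|D|` for every `D ∈ DN N` (chosen field `E` of `SF`, exists by `SFA`; `h D = Nat.card ..` by `E.fin`, `E.dK`), summed over `D`.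
(a) `#DN N ≤ N + 1`. (b) `i < I`, `j ≤ i`: `Y = √N/2^i ≥ N^(1/2 - η')`, `l = √N/2^(j+1)`, `Y ≤ 2l ≤ √N`: HMN: `C₁ N/2^i`; `∑_i (i+1)/2^i ≤ 4`. (c) `Y = √N/2^I ∈ [1, 2 N^(1/2 - η')]`; `SC1` with `2^(J-1) ≤ Y < 2^J`: `(CLS E.K Y).ncard ≤ ∑_{j < J} (IA E.K (Y/2^j)).ncard`, `Y/2^j ≥ 1`; `U_stmt` with `ε = η'/4`:
`∑_D cA D (Y/2^j) ≤ C₂ (N Y)^ε (Y/2^j) √N ≤ C₂ N^(2ε) 2 N^(1/2 - η') √N/2^j ≤ 2 C₂ N/2^j` (`cA` uses the same chosen field); the sum over `j` is at most `4 C₂ N`. Total `≤ (2 + 8 C₁ + 8 C₂) N`. -/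
def HSUM_stmt : Prop := ∃ C N₀ : ℝ, 1 ≤ C ∧ 1 ≤ N₀ ∧ ∀ h : ℤ → ℕ,
  (∀ (K : Type) [Field K] [NumberField K], Module.finrank ℚ K = 2 →
    h (NumberField.discr K) = Nat.card {x : ClassGroup (𝓞 K) // x ^ 5 = 1}) →
  ∀ N : ℝ, N₀ ≤ N → ∑ D ∈ DN N, (h D : ℝ) ≤ C * N

/-- **HFIN** (short to medium; from HSUM). The target `UB_stmt`.
PROOF. `C, N₀` from HSUM, `C₁` from `main_bound 1`. `N = 0`: `s` is empty. `N ≥ 1`: the `D ∈ s` with `-D ≤ N₀`: `main_bound` with `⌈N₀⌉₊ + 1` in place of `N`: at most `C₁ (⌈N₀⌉₊ + 1)^(1+1) ≤ C₃ N`. The `D ∈ s` with `-D > N₀` lie in `DN (N/2^i)` for the `i` with `N/2^(i+1) < -D ≤ N/2^i` (`exists_nat_pow_near` for `N/(-D) ≥ 1`), and then `N/2^i ≥ -D > N₀`, `i < N + 1`: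
HSUM: `∑_i C N/2^i ≤ 2 C N`, the sum over the `i ∈ range (N + 1)` with `N/2^i ≥ N₀`. -/
def HFIN_stmt : Prop := HSUM_stmt → UB_stmt

end Pool.Agent.T6
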